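import Pool.Agent.H30.GonS

set_option autoImplicit false

namespace Pool.Agent.Results.MP_28c31d_co.OddDrop
open Pool.Agent.H30.Gon

theorem result : ∃ (n m : ℕ) (ends : Fin m → Fin n × Fin n), IsGraph (mult ends) ∧
    gon (mult (subdiv ends 3)) 1 < gon (mult ends) 1 :=
  ⟨13, 31, _, Pool.Agent.H30.GonS.isGraph,
    lt_of_le_of_lt Pool.Agent.H30.GonS.up Pool.Agent.H30.GonS.low⟩

end Pool.Agent.Results.MP_28c31d_co.OddDrop
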